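import Mathlib

set_option autoImplicit false

namespace Pool.Agent.Results.MP_04502c_nt.Decay

open Finset Filter Topology

lemma main (q r : ℕ) (hq : 1 ≤ q) (hr : (q * (32 * q ^ 2 + 3)) ^ 2 ≤ r) (a : ℕ → ℕ)
    (pos : ∀ n, 1 ≤ n → 1 ≤ a n) (mono : ∀ m n, 1 ≤ m → m ≤ n → a m ≤ a n)
    (eq : ∀ n, 1 ≤ n → a (∑ i ∈ Ioc (n - r) n, a i) = n) (m : ℕ)
    (hm : q * (32 * q ^ 2 + 3) ≤ m) : q * a m + 3 * q ≤ m := by
  obtain ⟨M, hM⟩ : ∃ M, M = q * (32 * q ^ 2 + 3) := ⟨_, rfl⟩
  rw [← hM] at hr hm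
  have hM3 : 3 ≤ M := by rw [hM]; nlinarith [Nat.zero_le (q * q ^ 2)]
  have hr3 : 3 ≤ r := by nlinarith
  obtain ⟨S, hS⟩ : ∃ S : ℕ → ℕ, S = fun n => ∑ i ∈ Ioc (n - r) n, a i := ⟨_, rfl⟩
  have eq' : ∀ n, 1 ≤ n → a (S n) = n := by rw [hS]; exact eq
  have S1 : ∀ n, 1 ≤ n → 1 ≤ S n := fun n hn => by
    rw [hS]
    exact (pos n hn).trans (single_le_sum (f := a) (fun _ _ => Nat.zero_le _) (by simp; omega))
  have lt1 : ∀ n k, 1 ≤ n → 1 ≤ k → n < a k → S n < k := fun n k hn hk h => by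
    by_contra hc
    have := mono k (S n) hk (by omega)
    rw [eq' n hn] at this
    omega
  have lt2 : ∀ n k, 1 ≤ n → a k < n → k < S n := fun n k hn h => by
    by_contra hc
    have := mono (S n) k (S1 n hn) (by omega)
    rw [eq' n hn] at this
    omega
  have Sge : ∀ n, 1 ≤ n → n ≤ S n := fun n hn => by
    induction n, hn using Nat.le_induction with
    | base => exact S1 1 le_rfl
    | succ n hn ih => exact lt_of_le_of_lt ih (lt2 (n + 1) (S n) (by omega) (by rw [eq' n hn]; omega))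
  have ale : ∀ k, 1 ≤ k → a k ≤ k := fun k hk => by
    by_contra hc
    have := lt1 k k hk hk (by omega)
    have := Sge k hk
    omega
  have Sle : ∀ n, S n ≤ (n - (n - r)) * a n := fun n => by
    rw [hS]
    simpa using sum_le_card_nsmul (Ioc (n - r) n) a (a n) fun i hi => by
      simp only [mem_Ioc] at hi
      exact mono i n (by omega) hi.2
  have Ssq : ∀ n, 1 ≤ n → S n ≤ n ^ 2 := fun n hn =>
    (Sle n).trans (by rw [pow_two]; exact Nat.mul_le_mul (by omega) (ale n hn))
  have Slow : ∀ n j, n - r ≤ j → (n - j) * a (j + 1) ≤ S n := fun n j hj => by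
    rw [hS]
    refine le_trans ?_ (sum_le_sum_of_subset (Ioc_subset_Ioc_left hj))
    simpa using card_nsmul_le_sum (Ioc j n) a (a (j + 1)) fun i hi => by
      simp only [mem_Ioc] at hi
      exact mono _ i (by omega) hi.1
  induction m using Nat.strong_induction_on with
  | _ m ih =>
    obtain ⟨n, hn⟩ : ∃ n, a m = n + 1 := ⟨a m - 1, by have := pos m (by omega); omega⟩
    have hnm := ale m (by omega)
    by_cases h0 : n + 1 ≤ 32 * q ^ 2
    · rw [hn]
      nlinarith
    have hq2 : 1 ≤ q ^ 2 := Nat.one_le_pow _ _ hq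
    have h1 := lt1 n m (by omega) (by omega) (by omega)
    rw [hn]
    by_cases h2 : M ^ 2 + r ≤ n
    · obtain ⟨k, rfl⟩ : ∃ k, n = k + r := ⟨n - r, by omega⟩
      have h3 := Slow (k + r) k (by omega)
      rw [Nat.add_sub_cancel_left] at h3
      have h4 := lt2 (a (k + 1) + 1) (k + 1) (by omega) (by omega)
      have h5 := Ssq (a (k + 1) + 1) (by omega)
      have h6 : M ≤ a (k + 1) + 1 := by
        by_contra hc
        have := Nat.pow_le_pow_left (show a (k + 1) + 1 ≤ M by omega) 2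
        omega
      have h7 := ale (k + 1) (by omega)
      have h8 := ih (a (k + 1) + 1) (by omega) h6
      have h9 : S (a (k + 1) + 1) ≤ r * a (a (k + 1) + 1) :=
        (Sle _).trans (Nat.mul_le_mul_right _ (by omega))
      have h10 := Nat.mul_le_mul_left r h8
      have h11 := Nat.mul_le_mul_left q (h4.le.trans h9)
      have h12 : 3 * q + r ≤ 2 * q * r := by nlinarith
      nlinarith
    · have h3 := Slow n (max (n - r) ((4 * q) ^ 2)) (le_max_left _ _)
      have h4 : 4 * q ≤ a (max (n - r) ((4 * q) ^ 2) + 1) := by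
        by_contra hc
        have := lt2 (4 * q) (max (n - r) ((4 * q) ^ 2) + 1) (by omega) (by omega)
        have := Ssq (4 * q) (by omega)
        omega
      have e : (4 * q) ^ 2 = 16 * q ^ 2 := by ring
      have h5 : n ≤ 2 * (n - max (n - r) ((4 * q) ^ 2)) := by omega
      have h6 := Nat.mul_le_mul h5 h4
      have h7 : 4 ≤ n := by omega
      nlinarith

theorem result (a : ℕ → ℕ → ℕ) (pos : ∀ r, 2 ≤ r → ∀ n, 1 ≤ n → 1 ≤ a r n)
    (mono : ∀ r, 2 ≤ r → ∀ m n, 1 ≤ m → m ≤ n → a r m ≤ a r n)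
    (eq : ∀ r, 2 ≤ r → ∀ n, 1 ≤ n → a r (∑ i ∈ Ioc (n - r) n, a r i) = n) :
    (∀ r, 2 ≤ r → IsBoundedUnder (· ≤ ·) atTop fun n : ℕ => (a r n : ℝ) / n) ∧
    Tendsto (fun r : ℕ => limsup (fun n : ℕ => (a r n : ℝ) / n) atTop) atTop (𝓝 0) := by
  have cob : ∀ r, IsCoboundedUnder (· ≤ ·) atTop fun n : ℕ => (a r n : ℝ) / n := fun r =>
    isCoboundedUnder_le_of_le atTop (x := 0) fun n => by positivity
  have bd : ∀ r, 2 ≤ r → IsBoundedUnder (· ≤ ·) atTop fun n : ℕ => (a r n : ℝ) / n := by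
    intro r hr
    refine ⟨1, ?_⟩
    rw [eventually_map]
    filter_upwards [eventually_ge_atTop 1] with k hk
    have S1 : ∀ n, 1 ≤ n → 1 ≤ ∑ i ∈ Ioc (n - r) n, a r i := fun n hn =>
      (pos r hr n hn).trans (single_le_sum (f := a r) (fun _ _ => Nat.zero_le _) (by simp; omega))
    have Sge : ∀ n, 1 ≤ n → n ≤ ∑ i ∈ Ioc (n - r) n, a r i := fun n hn => by
      induction n, hn using Nat.le_induction with
      | base => exact S1 1 le_rfl
      | succ n hn ih =>
        by_contra hc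
        have := mono r hr _ (∑ i ∈ Ioc (n - r) n, a r i) (S1 (n + 1) (by omega)) (by omega)
        rw [eq r hr n hn, eq r hr (n + 1) (by omega)] at this
        omega
    have := mono r hr k _ hk (Sge k hk)
    rw [eq r hr k hk] at this
    exact div_le_one_of_le₀ (by exact_mod_cast this) (by positivity)
  refine ⟨bd, tendsto_order.mpr ⟨fun x hx => ?_, fun x hx => ?_⟩⟩
  · filter_upwards [eventually_ge_atTop 2] with r hr
    exact hx.trans_le (le_limsup_of_frequently_le (Frequently.of_forall fun n => by positivity)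
      (bd r hr))
  · obtain ⟨q, hq⟩ := exists_nat_one_div_lt hx
    filter_upwards [eventually_ge_atTop 2,
      eventually_ge_atTop (((q + 1) * (32 * (q + 1) ^ 2 + 3)) ^ 2)] with r hr hr'
    refine lt_of_le_of_lt (limsup_le_of_le (cob r) ?_) hq
    filter_upwards [eventually_ge_atTop 1,
      eventually_ge_atTop ((q + 1) * (32 * (q + 1) ^ 2 + 3))] with m h1 hm
    have := main (q + 1) r (by omega) hr' (a r) (pos r hr) (mono r hr) (eq r hr) m hm
    have h2 : ((q + 1 : ℕ) : ℝ) * a r m ≤ m := by exact_mod_cast (by omega : (q + 1) * a r m ≤ m)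
    rw [div_le_div_iff₀ (by exact_mod_cast h1) (by positivity)]
    push_cast at h2
    linarith

end Pool.Agent.Results.MP_04502c_nt.Decay
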